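import Pool.Agent.N520.AN.All
import Pool.Agent.N543.AN2.Form

set_option autoImplicit false

open Pool.Agent.W689.Mk Filter Topology

namespace Pool.Agent.Results.MP_df2bd8_gt.AntipodalHolonomy

section groups
variable {V : Type} [NormedAddCommGroup V] [NormedSpace ℝ V]

/-- The attracting space of a sequence of linear automorphisms: the limits of the sequences
`g j (b j)` with `b j → 0`. (If the Cartan decompositions of the `g j` converge, this is the limit
of the sums of the directions of the singular values tending to infinity.) -/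
def att (g : ℕ → V ≃ₗ[ℝ] V) : Submodule ℝ V where
  carrier := {v | ∃ b : ℕ → V, Tendsto b atTop (𝓝 0) ∧ Tendsto (fun j => g j (b j)) atTop (𝓝 v)}
  add_mem' := by
    rintro v w ⟨b, hb, hv⟩ ⟨c, hc, hw⟩
    exact ⟨fun j => b j + c j, by simpa using hb.add hc, by simpa using hv.add hw⟩
  zero_mem' := ⟨fun _ => 0, tendsto_const_nhds, by simp⟩
  smul_mem' := by
    rintro a v ⟨b, hb, hv⟩
    exact ⟨fun j => a • b j, by simpa using hb.const_smul a, by simpa using hv.const_smul a⟩

/-- The limits of the sequences `g j (x j)` with `x` bounded. (If the Cartan decompositions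
converge, this is the limit of the sums of the directions of the singular values which do not tend
to zero.) -/
def big (g : ℕ → V ≃ₗ[ℝ] V) : Submodule ℝ V where
  carrier := {v | ∃ (x : ℕ → V) (C : ℝ), (∀ j, ‖x j‖ ≤ C) ∧
    Tendsto (fun j => g j (x j)) atTop (𝓝 v)}
  add_mem' := by
    rintro v w ⟨x, C, hx, hv⟩ ⟨y, D, hy, hw⟩
    exact ⟨fun j => x j + y j, C + D,
      fun j => (norm_add_le _ _).trans (add_le_add (hx j) (hy j)), by simpa using hv.add hw⟩
  zero_mem' := ⟨fun _ => 0, 0, fun _ => by simp, by simp⟩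
  smul_mem' := by
    rintro a v ⟨x, C, hx, hv⟩
    refine ⟨fun j => a • x j, |a| * C, fun j => ?_, by simpa using hv.const_smul a⟩
    rw [norm_smul, Real.norm_eq_abs]
    exact mul_le_mul_of_nonneg_left (hx j) (abs_nonneg a)

/-- The norms of the `g j` tend to infinity. -/
def Diverges (g : ℕ → V ≃ₗ[ℝ] V) : Prop :=
  ∃ v : ℕ → V, (∀ j, ‖v j‖ ≤ 1) ∧ Tendsto (fun j => ‖g j (v j)‖) atTop atTop

/-- The sequence has a limit flag `att g ⊆ big g` of dimensions `q` and `dim V - q`. -/
def HasFlag (q : ℕ) (g : ℕ → V ≃ₗ[ℝ] V) : Prop :=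
  Module.finrank ℝ (att g) = q ∧ Module.finrank ℝ (big g) + q = Module.finrank ℝ V

/-- A divergent antipodal group of type `q`: every divergent sequence of its elements has a
subsequence with a limit flag of dimensions `q` and `dim V - q` (i.e. `q` singular values tend to
infinity, `q` tend to zero, the other ones are bounded), and any two limit flags have the same
second space or are transversal: the first space of one meets the second space of the other only
in zero. -/
structure Antipodal (q : ℕ) (Λ : Subgroup (V ≃ₗ[ℝ] V)) : Prop where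
  pos : 0 < q
  flag : ∀ g : ℕ → V ≃ₗ[ℝ] V, (∀ j, g j ∈ Λ) → Diverges g →
    ∃ φ : ℕ → ℕ, StrictMono φ ∧ HasFlag q (g ∘ φ)
  transversal : ∀ g h : ℕ → V ≃ₗ[ℝ] V, (∀ j, g j ∈ Λ) → (∀ j, h j ∈ Λ) → HasFlag q g →
    HasFlag q h → big g = big h ∨ att g ⊓ big h = ⊥

/-- A divergent antipodal group of isometries of a nondegenerate form `B` (reflexive, for instance
symmetric or alternating), with respect to attracting spaces of the dimension `q`: no sequence has
a larger attracting space, every divergent sequence has a subsequence with attracting space of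
dimension `q`, and two such spaces are equal or transversal (each vector of one orthogonal to the
other one is zero). -/
structure AntipodalForm (B : V →ₗ[ℝ] V →ₗ[ℝ] ℝ) (q : ℕ) (Λ : Subgroup (V ≃ₗ[ℝ] V)) : Prop where
  refl : ∀ v w, B v w = 0 → B w v = 0
  nondeg : ∀ v, (∀ w, B v w = 0) → v = 0
  isom : ∀ g ∈ Λ, ∀ v w, B (g v) (g w) = B v w
  pos : 0 < q
  le : ∀ g : ℕ → V ≃ₗ[ℝ] V, (∀ j, g j ∈ Λ) → Module.finrank ℝ (att g) ≤ q
  flag : ∀ g : ℕ → V ≃ₗ[ℝ] V, (∀ j, g j ∈ Λ) → Diverges g →
    ∃ φ : ℕ → ℕ, StrictMono φ ∧ Module.finrank ℝ (att (g ∘ φ)) = q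
  transversal : ∀ g h : ℕ → V ≃ₗ[ℝ] V, (∀ j, g j ∈ Λ) → (∀ j, h j ∈ Λ) →
    Module.finrank ℝ (att g) = q → Module.finrank ℝ (att h) = q →
    att g = att h ∨ ∀ v ∈ att g, (∀ w ∈ att h, B v w = 0) → v = 0

end groups

section
variable {Γ E : Type} [Group Γ] [NormedAddCommGroup E] [NormedSpace ℝ E]

/-- the group of the linear automorphisms of `W` which are restrictions of linear parts of the
holonomies of elements of `H` -/
def LinOn (hol : Γ →* (E ≃ᵃ[ℝ] E)) (H : Subgroup Γ) (W : Submodule ℝ E) :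
    Subgroup (W ≃ₗ[ℝ] W) where
  carrier := {A | ∃ γ ∈ H, ∀ v : W, (hol γ).linear (v : E) = (A v : E)}
  one_mem' := ⟨1, H.one_mem, fun v => by rw [map_one]; rfl⟩
  mul_mem' := by
    rintro A B ⟨γ, hγ, hA⟩ ⟨δ, hδ, hB⟩
    refine ⟨γ * δ, H.mul_mem hγ hδ, fun v => ?_⟩
    show (hol (γ * δ)).linear (v : E) = ((A (B v) : W) : E)
    rw [← hA, ← hB, map_mul]
    rfl
  inv_mem' := by
    rintro A ⟨γ, hγ, hA⟩
    refine ⟨γ⁻¹, H.inv_mem hγ, fun v => ?_⟩
    have h1 : (v : E) = (hol γ).linear ((A⁻¹ v : W) : E) := by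
      rw [hA]
      exact (congrArg Subtype.val (LinearEquiv.congr_fun (mul_inv_cancel A) v)).symm
    conv_lhs => rw [h1]
    have h2 : AffineEquiv.linearHom (hol γ⁻¹) * AffineEquiv.linearHom (hol γ) = 1 := by
      rw [← map_mul, ← map_mul, inv_mul_cancel, map_one, map_one]
    exact LinearEquiv.congr_fun h2 ((A⁻¹ v : W) : E)

/-- If some subgroup of finite index of `H` preserves the space `big g` of a limit flag on `W`, then
the linear holonomy on `W` of some subgroup of finite index is solvable. (This condition excludes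
nothing for non-elementary groups. Elementary Anosov groups are virtually cyclic.) -/
def ElementarySolvable (hol : Γ →* (E ≃ᵃ[ℝ] E)) (H : Subgroup Γ) (W : Submodule ℝ E) (q : ℕ) :
    Prop :=
  (∃ g : ℕ → W ≃ₗ[ℝ] W, (∀ j, g j ∈ LinOn hol H W) ∧ HasFlag q g ∧
    ∃ H' : Subgroup Γ, H'.FiniteIndex ∧ H' ≤ H ∧
      ∀ A ∈ LinOn hol H' W, ∀ v ∈ big g, A v ∈ big g) →
  ∃ H' : Subgroup Γ, H'.FiniteIndex ∧ H' ≤ H ∧ Group.IsSolvable (LinOn hol H' W)

/-- the action of `H` by affine maps of `E / W` factors through a solvable group: the affine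
holonomy of some derived subgroup of `H` acts trivially on `E / W` -/
def SolvableModulo (hol : Γ →* (E ≃ᵃ[ℝ] E)) (H : Subgroup Γ) (W : Submodule ℝ E) : Prop :=
  ∃ j : ℕ, ∀ γ ∈ derivedSeries H j, ∀ v : E, hol (γ : Γ) v - v ∈ W

/-- The linear holonomy of `H` preserves a flag `W = S 0 ⊆ S 1 ⊆ … ⊆ S (m + 1) = E`, acts on the
quotients `S (i + 1) / S i`, `i < m`, by uniformly bounded maps, and on the last quotient
`S (m + 1) / S m` by uniformly quasi-conformal maps: with one constant `C`, every `γ` in `H`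
multiplies the norms of the last quotient by a factor `c > 0`, up to the constant `C`. For
`W = E` (and `m = 0`) this is no condition. -/
def TameAbove (hol : Γ →* (E ≃ᵃ[ℝ] E)) (H : Subgroup Γ) (W : Submodule ℝ E) : Prop :=
  ∃ (S : ℕ → Submodule ℝ E) (m : ℕ) (C : ℝ), S 0 = W ∧ S (m + 1) = ⊤ ∧
    (∀ i ≤ m, S i ≤ S (i + 1)) ∧ (∀ i ≤ m, ∀ γ ∈ H, ∀ v ∈ S i, (hol γ).linear v ∈ S i) ∧
    (∀ i < m, ∀ γ ∈ H, ∀ v ∈ S (i + 1), ∃ w ∈ S i, ‖(hol γ).linear v - w‖ ≤ C * ‖v‖) ∧
      ∀ γ ∈ H, ∃ c : ℝ, 0 < c ∧ ∀ v : E, (∃ w ∈ S m, ‖(hol γ).linear v - w‖ ≤ C * c * ‖v‖) ∧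
        ∃ w ∈ S m, ‖(hol γ⁻¹).linear v - w‖ ≤ C * c⁻¹ * ‖v‖

end

/-- (1) Let a closed affine manifold (or orbifold) with parallel volume be given by a connected
cover `X` with its group `Γ`, developing map `dev` and holonomy `hol`, and let the developing map be
injective. Suppose that the linear holonomy of some subgroup `H` of finite index preserves a
subspace `W` and acts on it through a divergent antipodal group (elementary groups being virtually
solvable), that the affine holonomy of `H` on the quotient by `W` is solvable, and that the linear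
holonomy of `H` is tame on this quotient (`TameAbove`; the last two conditions are empty for
`W = E`). Then the structure is complete: the developing map is a homeomorphism.

(2) Divergent antipodal groups of isometries of a form are divergent antipodal. -/
theorem result : (∀ (E X Γ : Type) [NormedAddCommGroup E] [NormedSpace ℝ E]
    [FiniteDimensional ℝ E] [TopologicalSpace X] [T2Space X] [SecondCountableTopology X]
    [ConnectedSpace X] [Group Γ] [MulAction Γ X] (dev : X → E) (hol : Γ →* (E ≃ᵃ[ℝ] E)),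
    AffData X Γ E dev hol → Function.Injective dev → ∀ H : Subgroup Γ, H.FiniteIndex →
    ∀ (W : Submodule ℝ E) (q : ℕ), Antipodal q (LinOn hol H W) → ElementarySolvable hol H W q →
      SolvableModulo hol H W → TameAbove hol H W → IsHomeomorph dev) ∧
    ∀ (V : Type) [NormedAddCommGroup V] [NormedSpace ℝ V] [FiniteDimensional ℝ V]
      (B : V →ₗ[ℝ] V →ₗ[ℝ] ℝ) (q : ℕ) (Λ : Subgroup (V ≃ₗ[ℝ] V)), AntipodalForm B q Λ →
      Antipodal q Λ := by
  refine ⟨?_, ?_⟩
  · intro E X Γ _ _ _ _ _ _ _ _ _ dev hol D hinj H hH W q hA hE ⟨j, hj⟩ ⟨S, m, C, h0, ht⟩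
    subst h0
    exact Pool.Agent.N520.AN.anti_complete X Γ E dev hol D hinj H hH S m
      ⟨ht.1, ht.2.1, ht.2.2.1, C, ht.2.2.2⟩ q ⟨hA.pos, hA.flag, hA.transversal⟩ hE j hj
  · intro V _ _ _ B q Λ h
    have h' : Pool.Agent.N520.AN.Anti q Λ :=
      Pool.Agent.N520.AN.t_form Pool.Agent.N520.AN.p_gr V B q Λ
        ⟨h.refl, h.nondeg, h.isom, h.pos, h.le, h.flag, h.transversal⟩
    exact ⟨h'.pos, h'.div, h'.anti⟩

end Pool.Agent.Results.MP_df2bd8_gt.AntipodalHolonomy
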