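import Pool.Agent.N520.AN.PR10

set_option autoImplicit false

open Pool.Agent.W689.Mk Filter Topology

namespace Pool.Agent.Results.MP_df2bd8_gt.ProductHolonomy

section groups
variable {V : Type} [NormedAddCommGroup V] [NormedSpace ℝ V]

/-- The attracting space of a sequence of linear automorphisms: the limits of the sequences
`g j (b j)` with `b j → 0`. -/
def att (g : ℕ → V ≃ₗ[ℝ] V) : Submodule ℝ V where
  carrier := {v | ∃ b : ℕ → V, Tendsto b atTop (𝓝 0) ∧ Tendsto (fun j => g j (b j)) atTop (𝓝 v)}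
  add_mem' := by
    rintro v w ⟨b, hb, hv⟩ ⟨c, hc, hw⟩
    exact ⟨fun j => b j + c j, by simpa using hb.add hc, by simpa using hv.add hw⟩
  zero_mem' := ⟨fun _ => 0, tendsto_const_nhds, by simp⟩
  smul_mem' := by
    rintro a v ⟨b, hb, hv⟩
    exact ⟨fun j => a • b j, by simpa using hb.const_smul a, by simpa using hv.const_smul a⟩

/-- The limits of the sequences `g j (x j)` with `x` bounded. -/
def big (g : ℕ → V ≃ₗ[ℝ] V) : Submodule ℝ V where
  carrier := {v | ∃ (x : ℕ → V) (C : ℝ), (∀ j, ‖x j‖ ≤ C) ∧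
    Tendsto (fun j => g j (x j)) atTop (𝓝 v)}
  add_mem' := by
    rintro v w ⟨x, C, hx, hv⟩ ⟨y, D, hy, hw⟩
    exact ⟨fun j => x j + y j, C + D,
      fun j => (norm_add_le _ _).trans (add_le_add (hx j) (hy j)), by simpa using hv.add hw⟩
  zero_mem' := ⟨fun _ => 0, 0, fun _ => by simp, by simp⟩
  smul_mem' := by
    rintro a v ⟨x, C, hx, hv⟩
    refine ⟨fun j => a • x j, |a| * C, fun j => ?_, by simpa using hv.const_smul a⟩
    rw [norm_smul, Real.norm_eq_abs]
    exact mul_le_mul_of_nonneg_left (hx j) (abs_nonneg a)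

/-- The norms of the `g j` tend to infinity. -/
def Diverges (g : ℕ → V ≃ₗ[ℝ] V) : Prop :=
  ∃ v : ℕ → V, (∀ j, ‖v j‖ ≤ 1) ∧ Tendsto (fun j => ‖g j (v j)‖) atTop atTop

/-- The sequence has a limit flag `att g ⊆ big g` of dimensions `q` and `dim V - q`. -/
def HasFlag (q : ℕ) (g : ℕ → V ≃ₗ[ℝ] V) : Prop :=
  Module.finrank ℝ (att g) = q ∧ Module.finrank ℝ (big g) + q = Module.finrank ℝ V

/-- A divergent antipodal group of type `q`: every divergent sequence of its elements has a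
subsequence with a limit flag of dimensions `q` and `dim V - q`, and any two limit flags have the
same second space or are transversal: the first space of one meets the second space of the other
only in zero. -/
structure Antipodal (q : ℕ) (Λ : Subgroup (V ≃ₗ[ℝ] V)) : Prop where
  pos : 0 < q
  flag : ∀ g : ℕ → V ≃ₗ[ℝ] V, (∀ j, g j ∈ Λ) → Diverges g →
    ∃ φ : ℕ → ℕ, StrictMono φ ∧ HasFlag q (g ∘ φ)
  transversal : ∀ g h : ℕ → V ≃ₗ[ℝ] V, (∀ j, g j ∈ Λ) → (∀ j, h j ∈ Λ) → HasFlag q g →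
    HasFlag q h → big g = big h ∨ att g ⊓ big h = ⊥

end groups

section
variable {Γ E : Type} [Group Γ] [NormedAddCommGroup E] [NormedSpace ℝ E]

/-- the group of the linear automorphisms of `W` which are restrictions of linear parts of the
holonomies of elements of `H` -/
def LinOn (hol : Γ →* (E ≃ᵃ[ℝ] E)) (H : Subgroup Γ) (W : Submodule ℝ E) :
    Subgroup (W ≃ₗ[ℝ] W) where
  carrier := {A | ∃ γ ∈ H, ∀ v : W, (hol γ).linear (v : E) = (A v : E)}
  one_mem' := ⟨1, H.one_mem, fun v => by rw [map_one]; rfl⟩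
  mul_mem' := by
    rintro A B ⟨γ, hγ, hA⟩ ⟨δ, hδ, hB⟩
    refine ⟨γ * δ, H.mul_mem hγ hδ, fun v => ?_⟩
    show (hol (γ * δ)).linear (v : E) = ((A (B v) : W) : E)
    rw [← hA, ← hB, map_mul]
    rfl
  inv_mem' := by
    rintro A ⟨γ, hγ, hA⟩
    refine ⟨γ⁻¹, H.inv_mem hγ, fun v => ?_⟩
    have h1 : (v : E) = (hol γ).linear ((A⁻¹ v : W) : E) := by
      rw [hA]
      exact (congrArg Subtype.val (LinearEquiv.congr_fun (mul_inv_cancel A) v)).symm
    conv_lhs => rw [h1]
    have h2 : AffineEquiv.linearHom (hol γ⁻¹) * AffineEquiv.linearHom (hol γ) = 1 := by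
      rw [← map_mul, ← map_mul, inv_mul_cancel, map_one, map_one]
    exact LinearEquiv.congr_fun h2 ((A⁻¹ v : W) : E)

/-- (a) `H` acts linearly on `V` by uniformly bounded maps. -/
def Bounded (hol : Γ →* (E ≃ᵃ[ℝ] E)) (H : Subgroup Γ) (V : Submodule ℝ E) : Prop :=
  ∃ C : ℝ, ∀ γ ∈ H, ∀ v ∈ V, ‖(hol γ).linear v‖ ≤ C * ‖v‖

/-- (b) `H` acts linearly on `V` by a divergent antipodal group whose type `q` is half of the
dimension of `V`, and which is not elementary: no limit space is preserved by the linear holonomy of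
a subgroup of finite index. -/
def NonElementary (hol : Γ →* (E ≃ᵃ[ℝ] E)) (H : Subgroup Γ) (V : Submodule ℝ E) : Prop :=
  ∃ q : ℕ, Antipodal q (LinOn hol H V) ∧ Module.finrank ℝ V = 2 * q ∧
    ∀ g : ℕ → V ≃ₗ[ℝ] V, (∀ j, g j ∈ LinOn hol H V) → HasFlag q g → ∀ H' : Subgroup Γ,
      H'.FiniteIndex → H' ≤ H → ∃ A ∈ LinOn hol H' V, ∃ v ∈ big g, A v ∉ big g

/-- The linear parts of the holonomies of the elements of `H` preserve the subspace `V` and act on
it by maps of determinant `±1`. -/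
def Unimodular (hol : Γ →* (E ≃ᵃ[ℝ] E)) (H : Subgroup Γ) (V : Submodule ℝ E) : Prop :=
  ∀ γ ∈ H, ∃ A : V ≃ₗ[ℝ] V, (∀ v : V, (hol γ).linear (v : E) = (A v : E)) ∧
    |LinearMap.det (A : V →ₗ[ℝ] V)| = 1

/-- (c) `V` is a plane on which `H` acts linearly by maps of determinant `±1`, and no line of `V` is
preserved by the linear holonomy of a subgroup of finite index. -/
def IrreduciblePlane (hol : Γ →* (E ≃ᵃ[ℝ] E)) (H : Subgroup Γ) (V : Submodule ℝ E) : Prop :=
  Module.finrank ℝ V = 2 ∧ Unimodular hol H V ∧ ∀ H' : Subgroup Γ, H'.FiniteIndex → H' ≤ H →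
    ∀ l : Submodule ℝ E, l ≤ V → Module.finrank ℝ l = 1 →
      ∃ γ ∈ H', ∃ v ∈ l, (hol γ).linear v ∉ l

/-- (a), (b) or (c) -/
def Good (hol : Γ →* (E ≃ᵃ[ℝ] E)) (H : Subgroup Γ) (V : Submodule ℝ E) : Prop :=
  Bounded hol H V ∨ NonElementary hol H V ∨ IrreduciblePlane hol H V

/-- the action of `H` by affine maps of `E / W` factors through a solvable group: the affine
holonomy of some derived subgroup of `H` acts trivially on `E / W` -/
def SolvableModulo (hol : Γ →* (E ≃ᵃ[ℝ] E)) (H : Subgroup Γ) (W : Submodule ℝ E) : Prop :=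
  ∃ j : ℕ, ∀ γ ∈ derivedSeries H j, ∀ v : E, hol (γ : Γ) v - v ∈ W

/-- The linear holonomy of `H` preserves a flag `W = S 0 ⊆ S 1 ⊆ … ⊆ S (m + 1) = E`, acts on the
quotients `S (i + 1) / S i`, `i < m`, by uniformly bounded maps, and on the last quotient
`S (m + 1) / S m` by uniformly quasi-conformal maps: with one constant `C`, every `γ` in `H`
multiplies the norms of the last quotient by a factor `c > 0`, up to the constant `C`. -/
def TameAbove (hol : Γ →* (E ≃ᵃ[ℝ] E)) (H : Subgroup Γ) (W : Submodule ℝ E) : Prop :=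
  ∃ (S : ℕ → Submodule ℝ E) (m : ℕ) (C : ℝ), S 0 = W ∧ S (m + 1) = ⊤ ∧
    (∀ i ≤ m, S i ≤ S (i + 1)) ∧ (∀ i ≤ m, ∀ γ ∈ H, ∀ v ∈ S i, (hol γ).linear v ∈ S i) ∧
    (∀ i < m, ∀ γ ∈ H, ∀ v ∈ S (i + 1), ∃ w ∈ S i, ‖(hol γ).linear v - w‖ ≤ C * ‖v‖) ∧
      ∀ γ ∈ H, ∃ c : ℝ, 0 < c ∧ ∀ v : E, (∃ w ∈ S m, ‖(hol γ).linear v - w‖ ≤ C * c * ‖v‖) ∧
        ∃ w ∈ S m, ‖(hol γ⁻¹).linear v - w‖ ≤ C * c⁻¹ * ‖v‖

/-- The linear holonomy is of product type: `E` is the direct sum of the subspaces `V i`, preserved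
by the linear holonomy of `H`, and either all of them with at most one exception `V o` are of one
of the types (a), (b), (c), and `V o` is of one of these types, or (d) a plane on which `H` acts by
maps of determinant `±1`, or (e) the affine holonomy modulo the sum of the other subspaces is
solvable and tame; or else there are two subspaces, both of them of type (d). -/
def ProductType (hol : Γ →* (E ≃ᵃ[ℝ] E)) (H : Subgroup Γ) {ι : Type} [Fintype ι] [DecidableEq ι]
    (V : ι → Submodule ℝ E) (o : ι) : Prop :=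
  DirectSum.IsInternal V ∧ (∀ i, ∀ γ ∈ H, ∀ v ∈ V i, (hol γ).linear v ∈ V i) ∧
    (((∀ i ≠ o, Good hol H (V i)) ∧ (Good hol H (V o) ∨
      (Module.finrank ℝ (V o) = 2 ∧ Unimodular hol H (V o)) ∨
        (SolvableModulo hol H (⨆ i ≠ o, V i) ∧ TameAbove hol H (⨆ i ≠ o, V i)))) ∨
      (Fintype.card ι = 2 ∧ ∀ i, Module.finrank ℝ (V i) = 2 ∧ Unimodular hol H (V i)))

end

/-- Let a closed affine manifold (or orbifold) with parallel volume be given by a connected cover
`X` with its group `Γ`, developing map `dev` and holonomy `hol`, and let the developing map be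
injective. If the linear holonomy of some subgroup `H` of finite index is of product type, then the
structure is complete: the developing map is a homeomorphism. -/
theorem result (E X Γ : Type) [NormedAddCommGroup E] [NormedSpace ℝ E]
    [FiniteDimensional ℝ E] [TopologicalSpace X] [T2Space X] [SecondCountableTopology X]
    [ConnectedSpace X] [Group Γ] [MulAction Γ X] (dev : X → E) (hol : Γ →* (E ≃ᵃ[ℝ] E))
    (D : AffData X Γ E dev hol) (hinj : Function.Injective dev) (H : Subgroup Γ)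
    (hH : H.FiniteIndex) (ι : Type) [Fintype ι] [DecidableEq ι] (V : ι → Submodule ℝ E) (o : ι)
    (h : ProductType hol H V o) : IsHomeomorph dev := by
  have det : ∀ W : Submodule ℝ E, Unimodular hol H W → ∀ A ∈ Pool.Agent.N520.AN.LinOn hol H W,
      |LinearMap.det (A : W →ₗ[ℝ] W)| = 1 := by
    rintro W hW A ⟨γ, hγ, hA⟩
    obtain ⟨A', hA', h⟩ := hW γ hγ
    have : A = A' := LinearEquiv.ext fun v => Subtype.ext ((hA v).symm.trans (hA' v))
    rw [this]
    exact h
  obtain ⟨hV, hinv, ⟨hF, ho⟩ | ⟨hcard, hpl⟩⟩ := h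
  · have key : ∀ i, Good hol H (V i) → Pool.Agent.N520.AN.Fac hol H (V i) := by
      intro i hi
      rcases hi with h | ⟨q, hA, h2, h⟩ | ⟨h2, hu, hno⟩
      · exact Or.inl h
      · exact Or.inr ⟨q, ⟨hA.pos, hA.flag, hA.transversal⟩, h2, h⟩
      · exact Pool.Agent.N520.AN.fac_plane H h2 (det _ hu) (hinv i) hno
    refine Pool.Agent.N520.AN.rel_complete X Γ E dev hol D hinj H hH ι V hV hinv o
      (fun i hi => key i (hF i hi)) ?_
    rcases ho with h | ⟨h2, hu⟩ | ⟨⟨j, hj⟩, S, m, C, h0, ht⟩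
    · exact Or.inl (key o h)
    · exact Or.inr (Or.inr ⟨h2, det _ hu⟩)
    · exact Or.inr (Or.inl ⟨S, m, j, h0, ⟨ht.1, ht.2.1, ht.2.2.1, C, ht.2.2.2⟩, hj⟩)
  · obtain ⟨π, hπ⟩ := Pool.Agent.N520.AN.dec_ex V hV
    have hex : ∃ i, i ≠ o := by
      by_contra hcon
      push Not at hcon
      have : Fintype.card ι ≤ 1 := Fintype.card_le_one_iff.2 fun a b => by rw [hcon a, hcon b]
      omega
    obtain ⟨i, hi⟩ := hex
    have hall : ∀ l, l ≠ o → l = i := by
      intro l hl
      by_contra hne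
      have h3 : ({o, i, l} : Finset ι).card ≤ Fintype.card ι := Finset.card_le_univ _
      rw [Finset.card_eq_three.2 ⟨o, i, l, Ne.symm hi, Ne.symm hl, Ne.symm hne, rfl⟩, hcard] at h3
      omega
    have hsup : (⨆ l ≠ o, V l) = V i := by
      apply le_antisymm
      · exact iSup₂_le fun l hl => (hall l hl) ▸ le_rfl
      · exact le_iSup₂ (f := fun l (_ : l ≠ o) => V l) i hi
    have hc : IsCompl (V o) (V i) := by
      have := Pool.Agent.N520.AN.ker_compl hπ o
      rwa [Pool.Agent.N520.AN.ker_eq hπ o, hsup] at this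
    exact Pool.Agent.N520.AN.two_planes_all X Γ E dev hol D hinj H hH (V o) (V i) hc (hpl o).1
      (hpl i).1 (hinv o) (hinv i) (det _ (hpl o).2) (det _ (hpl i).2)

end Pool.Agent.Results.MP_df2bd8_gt.ProductHolonomy
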