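import Pool.Agent.N520.RO.Asm

set_option autoImplicit false

open Pool.Agent.W689.Mk

namespace Pool.Agent.Results.MP_df2bd8_gt.QuasiConformalFlags

/-- The linear holonomy of the subgroup `H` preserves the flag `0 = S 0 ⊆ S 1 ⊆ … ⊆ S m = E` and
acts on the quotients `S (i + 1) / S i` by uniformly quasi-conformal maps: there is one constant
`C`, and for all `γ` in `H` and `i < m` a factor `c > 0`, such that the linear part of `hol γ`
multiplies the quotient norm of `S (i + 1) / S i` at most by `C * c`, and its inverse at most by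
`C / c`. (For example: it acts on the quotients by similarities. Every closed amenable subgroup of
`GL(E)` has a subgroup of finite index with this property, by classical structure theory.) -/
def ConformalFlag {Γ E : Type} [Group Γ] [NormedAddCommGroup E] [NormedSpace ℝ E]
    (hol : Γ →* (E ≃ᵃ[ℝ] E)) (H : Subgroup Γ) (S : ℕ → Submodule ℝ E) (m : ℕ) : Prop :=
  S 0 = ⊥ ∧ S m = ⊤ ∧ (∀ i < m, S i ≤ S (i + 1)) ∧
    (∀ i ≤ m, ∀ γ ∈ H, ∀ v ∈ S i, (hol γ).linear v ∈ S i) ∧
    ∃ C : ℝ, ∀ i < m, ∀ γ ∈ H, ∃ c : ℝ, 0 < c ∧ ∀ v ∈ S (i + 1),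
      (∃ w ∈ S i, ‖(hol γ).linear v - w‖ ≤ C * c * ‖v‖) ∧
      ∃ w ∈ S i, ‖(hol γ⁻¹).linear v - w‖ ≤ C * c⁻¹ * ‖v‖

/-- Let a closed affine manifold (or orbifold) with parallel volume be given by a cover `X` with its
group `Γ`, developing map `dev` and holonomy `hol`; assume that the developing map is injective, so
that the manifold is a quotient `Γ \ Ω` of a domain `Ω` of the affine space. If the linear holonomy
of a subgroup `H` of finite index preserves a flag of linear subspaces and is uniformly
quasi-conformal on the quotients of the flag, then the structure is complete, `Ω` is the whole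
space, and the holonomy group is virtually solvable. -/
theorem result (X Γ E : Type) [NormedAddCommGroup E] [NormedSpace ℝ E]
    [FiniteDimensional ℝ E] [TopologicalSpace X] [T2Space X] [SecondCountableTopology X]
    [Nonempty X] [Group Γ] [MulAction Γ X] (dev : X → E) (hol : Γ →* (E ≃ᵃ[ℝ] E))
    (D : AffData X Γ E dev hol) (hinj : Function.Injective dev) (H : Subgroup Γ)
    (hH : H.FiniteIndex) (S : ℕ → Submodule ℝ E) (m : ℕ) (hS : ConformalFlag hol H S m) :
    IsHomeomorph dev ∧ ∃ H' : Subgroup Γ, H'.FiniteIndex ∧ Group.IsSolvable (H'.map hol) :=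
  Pool.Agent.N520.RO.quasi X Γ E dev hol D hinj H hH S m hS

end Pool.Agent.Results.MP_df2bd8_gt.QuasiConformalFlags
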