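import Pool.Agent.N520.RO.Plane

set_option autoImplicit false

open Pool.Agent.W689.Mk Filter Matrix

namespace Pool.Agent.Results.MP_df2bd8_gt.RankOneSubspaces

/-- The decompositions of a simple Lie group `G` of real rank one: `K` is a compact subset (a
compact neighbourhood of a maximal compact subgroup), `T` a one-parameter subgroup, `P` a subgroup
and `w` an element of `G` such that `G = K T K` (Cartan), `G = K P` (Iwasawa), every `p` in `P` is
the product of some `T s` and an element `q` with `T (-t) * q * T t` in `K` for large `t`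
(Langlands), `G = P ∪ P w P` (Bruhat), and `T t * w * T t` is in `K` for large `t` (Weyl). -/
structure RankOne {G : Type} [Group G] [TopologicalSpace G] (K : Set G) (P : Subgroup G)
    (T : ℝ → G) (w : G) : Prop where
  compact : IsCompact K
  add : ∀ s t, T (s + t) = T s * T t
  cartan : ∀ g, ∃ k ∈ K, ∃ t : ℝ, ∃ l ∈ K, g = k * T t * l
  iwasawa : ∀ g, ∃ k ∈ K, ∃ p ∈ P, g = k * p
  langlands : ∀ p ∈ P, ∃ s : ℝ, ∀ᶠ t in atTop, T (-t) * (T (-s) * p) * T t ∈ K
  bruhat : ∀ g, g ∈ P ∨ ∃ p ∈ P, ∃ q ∈ P, g = p * w * q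
  weyl : ∀ᶠ t in atTop, T t * w * T t ∈ K

/-- `G` is a topological group of rank one and `T` its one-parameter group -/
def IsRankOne {G : Type} [Group G] [TopologicalSpace G] (T : ℝ → G) : Prop :=
  IsTopologicalGroup G ∧ ∃ (K : Set G) (P : Subgroup G) (w : G), RankOne K P T w

/-- `ρ` is a continuous representation of `G` on `V` in which `T` acts diagonalizably: `V` is
spanned by weight vectors. (The second condition is classical for every continuous finite
dimensional representation of a simple Lie group `G` and the one-parameter groups `T` above.) -/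
def IsRep {G : Type} [Group G] [TopologicalSpace G] {V : Type} [NormedAddCommGroup V]
    [NormedSpace ℝ V] (T : ℝ → G) (ρ : G →* (V ≃ₗ[ℝ] V)) : Prop :=
  (∀ v : V, Continuous fun g : G => ρ g v) ∧
    Submodule.span ℝ {v : V | ∃ c : ℝ, ∀ t : ℝ, ρ (T t) v = Real.exp (c * t) • v} = ⊤

section
variable {Γ E : Type} [Group Γ] [NormedAddCommGroup E] [NormedSpace ℝ E]

/-- the linear holonomy of `H` preserves the subspace `W` and acts on it through some
representation of some group of rank one -/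
def RankOneOn (hol : Γ →* (E ≃ᵃ[ℝ] E)) (H : Subgroup Γ) (W : Submodule ℝ E) : Prop :=
  ∃ (G : Type) (_ : Group G) (_ : TopologicalSpace G) (T : ℝ → G) (ρ : G →* (W ≃ₗ[ℝ] W)),
    IsRankOne T ∧ IsRep T ρ ∧ ∀ γ ∈ H, ∃ g : G, ∀ v : W, (hol γ).linear (v : E) = (ρ g v : E)

/-- the action of `H` by affine maps of `E / W` factors through a solvable group: the affine
holonomy of some derived subgroup of `H` acts trivially on `E / W` -/
def SolvableModulo (hol : Γ →* (E ≃ᵃ[ℝ] E)) (H : Subgroup Γ) (W : Submodule ℝ E) : Prop :=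
  ∃ j : ℕ, ∀ γ ∈ derivedSeries H j, ∀ v : E, hol (γ : Γ) v - v ∈ W

/-- The linear holonomy of `H` preserves a flag `W = S 0 ⊆ S 1 ⊆ … ⊆ S (m + 1) = E`, acts on the
quotients `S (i + 1) / S i`, `i < m`, by uniformly bounded maps, and on the last quotient
`S (m + 1) / S m` by uniformly quasi-conformal maps: with one constant `C`, every `γ` in `H`
multiplies the norms of the last quotient by a factor `c > 0`, up to the constant `C`. For
`W = E` (and `m = 0`) this is no condition. -/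
def TameAbove (hol : Γ →* (E ≃ᵃ[ℝ] E)) (H : Subgroup Γ) (W : Submodule ℝ E) : Prop :=
  ∃ (S : ℕ → Submodule ℝ E) (m : ℕ) (C : ℝ), S 0 = W ∧ S (m + 1) = ⊤ ∧
    (∀ i ≤ m, S i ≤ S (i + 1)) ∧ (∀ i ≤ m, ∀ γ ∈ H, ∀ v ∈ S i, (hol γ).linear v ∈ S i) ∧
    (∀ i < m, ∀ γ ∈ H, ∀ v ∈ S (i + 1), ∃ w ∈ S i, ‖(hol γ).linear v - w‖ ≤ C * ‖v‖) ∧
      ∀ γ ∈ H, ∃ c : ℝ, 0 < c ∧ ∀ v : E, (∃ w ∈ S m, ‖(hol γ).linear v - w‖ ≤ C * c * ‖v‖) ∧
        ∃ w ∈ S m, ‖(hol γ⁻¹).linear v - w‖ ≤ C * c⁻¹ * ‖v‖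

end

/-- the isometry group `O(n + 1, 1)` or `U(n + 1, 1)` (for `𝕜 = ℝ`, `ℂ`) of the form
`-|x 0|² + |x 1|² + … + |x (n + 1)|²`, a subgroup of `GL(n + 2, 𝕜)` -/
abbrev LorGroup (𝕜 : Type) [RCLike 𝕜] (n : ℕ) : Subgroup (GL (Fin (n + 2)) 𝕜) :=
  Pool.Agent.N520.RO.LorGroup 𝕜 n

theorem mem_LorGroup (𝕜 : Type) [RCLike 𝕜] (n : ℕ) (g : GL (Fin (n + 2)) 𝕜) :
    g ∈ LorGroup 𝕜 n ↔ (g : Matrix (Fin (n + 2)) (Fin (n + 2)) 𝕜)ᴴ *
      Matrix.diagonal (fun i => if i = 0 then (-1 : 𝕜) else 1) *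
        (g : Matrix (Fin (n + 2)) (Fin (n + 2)) 𝕜) =
      Matrix.diagonal (fun i => if i = 0 then (-1 : 𝕜) else 1) := Iff.rfl

/-- `T` is the one-parameter group of the boosts (hyperbolic rotations) in the plane of the
coordinates `0` and `1` -/
def IsBoost {𝕜 : Type} [RCLike 𝕜] {n : ℕ} (T : ℝ → LorGroup 𝕜 n) : Prop :=
  ∀ t, ((T t : GL (Fin (n + 2)) 𝕜) : Matrix (Fin (n + 2)) (Fin (n + 2)) 𝕜) = fun i j =>
    if i = 0 ∧ j = 0 ∨ i = 1 ∧ j = 1 then (Real.cosh t : 𝕜)
    else if i = 0 ∧ j = 1 ∨ i = 1 ∧ j = 0 then (Real.sinh t : 𝕜)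
    else if i = j then 1 else 0

/-- the groups `O(n + 1, 1)` and `U(n + 1, 1)` are of rank one, their one-parameter groups are the
boosts, and the products of groups of rank one with compact groups are of rank one -/
def RankOneGroups : Prop :=
  (∀ (𝕜 : Type) [RCLike 𝕜] (n : ℕ), ∃ T : ℝ → LorGroup 𝕜 n, IsBoost T ∧ IsRankOne T) ∧
    ∀ (G C : Type) [Group G] [TopologicalSpace G] [Group C] [TopologicalSpace C]
      [IsTopologicalGroup C] [CompactSpace C] (T : ℝ → G), IsRankOne T →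
      IsRankOne (fun t => ((T t, 1) : G × C))

theorem prod_rank {G C : Type} [Group G] [TopologicalSpace G] [Group C] [TopologicalSpace C]
    [IsTopologicalGroup C] [CompactSpace C] (T : ℝ → G) (h : IsRankOne T) :
    IsRankOne (fun t => ((T t, 1) : G × C)) := by
  obtain ⟨hG, K, P, w, hR⟩ := h
  refine ⟨inferInstance, K ×ˢ Set.univ, P.prod ⊤, (w, 1), ?_, ?_, ?_, ?_, ?_, ?_, ?_⟩
  · exact hR.compact.prod isCompact_univ
  · intro s t
    refine Prod.ext (hR.add s t) ?_
    simp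
  · rintro ⟨g, c⟩
    obtain ⟨k, hk, t, l, hl, h⟩ := hR.cartan g
    refine ⟨(k, c), ⟨hk, trivial⟩, t, (l, 1), ⟨hl, trivial⟩, Prod.ext h ?_⟩
    simp
  · rintro ⟨g, c⟩
    obtain ⟨k, hk, p, hp, h⟩ := hR.iwasawa g
    refine ⟨(k, c), ⟨hk, trivial⟩, (p, 1), ⟨hp, trivial⟩, Prod.ext h ?_⟩
    simp
  · rintro ⟨p, c⟩ hp
    obtain ⟨s, hs⟩ := hR.langlands p hp.1
    exact ⟨s, hs.mono fun t ht => ⟨ht, trivial⟩⟩
  · rintro ⟨g, c⟩
    rcases hR.bruhat g with hg | ⟨p, hp, q, hq, h⟩
    · exact Or.inl ⟨hg, trivial⟩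
    · refine Or.inr ⟨(p, c), ⟨hp, trivial⟩, (q, 1), ⟨hq, trivial⟩, Prod.ext h ?_⟩
      simp
  · exact hR.weyl.mono fun t ht => ⟨ht, trivial⟩

/-- Let a closed affine manifold (or orbifold) with parallel volume be given by a connected cover
`X` with its group `Γ`, developing map `dev` and holonomy `hol`, and let the developing map be
injective. Suppose that the linear holonomy of some subgroup `H` of finite index preserves a
subspace `W` and acts on it through a representation of a group of rank one, that the affine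
holonomy of `H` on the quotient by `W` is solvable, and that the linear holonomy of `H` is tame on
this quotient (`TameAbove`). Then the structure is complete: the developing map is a
homeomorphism. This contains the case `W = E`; for planes `W` (and the group `SL(2, ℝ)`) it gives
the second part: it is enough that the linear holonomy of `H` acts trivially on the quotient by
some plane, i.e. that, up to a finite cover, there are `n - 2` linearly independent parallel
1-forms. The groups `O(n + 1, 1)`, `U(n + 1, 1)` and their products with compact groups are of rank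
one in this sense. -/
theorem result : (∀ (E X Γ : Type) [NormedAddCommGroup E] [NormedSpace ℝ E]
    [FiniteDimensional ℝ E] [TopologicalSpace X] [T2Space X] [SecondCountableTopology X]
    [ConnectedSpace X] [Group Γ] [MulAction Γ X] (dev : X → E) (hol : Γ →* (E ≃ᵃ[ℝ] E)),
    AffData X Γ E dev hol → Function.Injective dev → ∀ H : Subgroup Γ, H.FiniteIndex →
    ∀ W : Submodule ℝ E, (RankOneOn hol H W ∧ SolvableModulo hol H W ∧ TameAbove hol H W) ∨
      (Module.finrank ℝ W = 2 ∧ ∀ γ ∈ H, ∀ v : E, (hol γ).linear v - v ∈ W) →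
    IsHomeomorph dev) ∧ RankOneGroups := by
  refine ⟨?_, ?_, fun G C _ _ _ _ _ _ T h => prod_rank T h⟩
  · intro E X Γ _ _ _ _ _ _ _ _ _ dev hol D hinj H hH W h
    rcases h with ⟨⟨G, _, _, T, ρ, ⟨hG, K, P, w, hR⟩, hr, hρ⟩, ⟨j, hj⟩, S, m, C, h0, ht⟩ |
      ⟨hW2, hW⟩
    · subst h0
      exact Pool.Agent.N520.RO.rankC (K := K) (P := P) (T := T) (w := w) hG
        ⟨hR.compact, hR.add, hR.cartan, hR.iwasawa, hR.langlands, hR.bruhat, hR.weyl⟩
        X Γ E dev hol D hinj H hH S m ⟨ht.1, ht.2.1, ht.2.2.1, C, ht.2.2.2⟩ ρ hr hρ j hj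
    · exact Pool.Agent.N520.RO.plane_case X Γ E dev hol D hinj H hH W hW2 hW
  · intro 𝕜 _ n
    obtain ⟨K, P, T, w, hT, hR⟩ := Pool.Agent.N520.RO.inst_all 𝕜 n
    exact ⟨T, hT, inferInstance, K, P, w,
      ⟨hR.compact, hR.add, hR.cartan, hR.iwasawa, hR.langlands, hR.bruhat, hR.weyl⟩⟩

end Pool.Agent.Results.MP_df2bd8_gt.RankOneSubspaces
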